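import Pool.Agent.H18.HIT.Targets

/-!
Board hit_modules, row DFB: the degrees of the coefficients of a factor.
-/

set_option autoImplicit false

namespace Pool.Agent.H74.HIT.DFB

open Polynomial
open Pool.Agent.H18.HIT

section

variable {F : Type} [CommRing F]

/-- the substitution `t ↦ t`, `T ↦ T t^c`, with the roles of the variables exchanged -/
noncomputable def phi (F : Type) [CommRing F] (c : ℕ) : F[X][X] →+* F[X][X] :=
  eval₂RingHom (mapRingHom (C : F →+* F[X])) (C X * X ^ c)

theorem phi_monomial (c i : ℕ) (a : F[X]) :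
    phi F c (monomial i a) = map (C : F →+* F[X]) a * (C (X ^ i) * X ^ (c * i)) := by
  unfold phi
  rw [coe_eval₂RingHom, eval₂_monomial, coe_mapRingHom, mul_pow, ← C_pow, ← pow_mul]

theorem coeff_phi_monomial (c i n j : ℕ) (a : F[X]) :
    ((phi F c (monomial i a)).coeff n).coeff j =
      if c * j ≤ n then ((monomial i a : F[X][X]).coeff j).coeff (n - c * j) else 0 := by
  rw [phi_monomial, ← mul_assoc, coeff_mul_X_pow']
  by_cases hij : i = j
  · subst hij
    split_ifs with h
    · rw [coeff_mul_C, coeff_map, coeff_C_mul, coeff_X_pow, if_pos rfl, mul_one,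
        coeff_monomial, if_pos rfl]
    · rw [coeff_zero]
  · have h1 : ((monomial i a : F[X][X]).coeff j) = 0 := by rw [coeff_monomial, if_neg hij]
    rw [h1, coeff_zero, ite_self]
    split_ifs with h
    · rw [coeff_mul_C, coeff_map, coeff_C_mul, coeff_X_pow, if_neg (fun h => hij h.symm), mul_zero]
    · rw [coeff_zero]

theorem coeff_phi (c n j : ℕ) (P : F[X][X]) :
    ((phi F c P).coeff n).coeff j = if c * j ≤ n then (P.coeff j).coeff (n - c * j) else 0 := by
  induction P using Polynomial.induction_on' with
  | add p q hp hq =>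
    rw [map_add, coeff_add, coeff_add, hp, hq, coeff_add, coeff_add]
    split_ifs <;> simp
  | monomial i a => exact coeff_phi_monomial c i n j a

theorem le_natDegree_phi (c j : ℕ) (P : F[X][X]) (h : P.coeff j ≠ 0) :
    (P.coeff j).natDegree + c * j ≤ (phi F c P).natDegree := by
  refine le_natDegree_of_ne_zero fun h0 => ?_
  have h1 := coeff_phi c ((P.coeff j).natDegree + c * j) j P
  rw [h0, coeff_zero, if_pos (Nat.le_add_left _ _), Nat.add_sub_cancel] at h1
  exact h (leadingCoeff_eq_zero.1 h1.symm)

theorem natDegree_phi_le (c m : ℕ) (P : F[X][X])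
    (h : ∀ j, P.coeff j ≠ 0 → (P.coeff j).natDegree + c * j ≤ m) :
    (phi F c P).natDegree ≤ m := by
  rw [natDegree_le_iff_coeff_eq_zero]
  intro n hn
  ext j
  rw [coeff_phi, coeff_zero]
  split_ifs with hj
  · by_cases h0 : P.coeff j = 0
    · rw [h0, coeff_zero]
    · refine coeff_eq_zero_of_natDegree_lt ?_
      have := h j h0
      omega
  · rfl

end

theorem pf_DFB : T_DFB := by
  intro F _ _ A B c hA hB h
  have hA1 : A.coeff A.natDegree = 1 := hA
  have hB1 : B.coeff B.natDegree = 1 := hB
  have hAn : A.coeff A.natDegree ≠ 0 := by rw [hA1]; exact one_ne_zero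
  have hBn : B.coeff B.natDegree ≠ 0 := by rw [hB1]; exact one_ne_zero
  have key : ∀ P : F[X][X], P.coeff P.natDegree = 1 → phi F c P ≠ 0 := by
    intro P hP h0
    have h1 := coeff_phi c (c * P.natDegree) P.natDegree P
    rw [h0, coeff_zero, coeff_zero, if_pos le_rfl, Nat.sub_self, hP, coeff_one_zero] at h1
    exact zero_ne_one h1
  have hWA := le_natDegree_phi c A.natDegree A hAn
  have hWB := le_natDegree_phi c B.natDegree B hBn
  rw [hA1, natDegree_one, zero_add] at hWA
  rw [hB1, natDegree_one, zero_add] at hWB
  have hmul : (phi F c (A * B)).natDegree = (phi F c A).natDegree + (phi F c B).natDegree := by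
    rw [map_mul, natDegree_mul (key A hA1) (key B hB1)]
  have hdeg : (A * B).natDegree = A.natDegree + B.natDegree := hA.natDegree_mul hB
  have hW : (phi F c (A * B)).natDegree ≤ c * (A.natDegree + B.natDegree) := by
    refine natDegree_phi_le c _ _ fun j hj => ?_
    have h1 := h j
    have h2 : j ≤ (A * B).natDegree := le_natDegree_of_ne_zero hj
    rw [hdeg] at h1 h2
    calc ((A * B).coeff j).natDegree + c * j
        ≤ c * (A.natDegree + B.natDegree - j) + c * j := by omega
      _ = c * (A.natDegree + B.natDegree) := by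
          rw [← mul_add, Nat.sub_add_cancel h2]
  intro j
  by_cases h0 : A.coeff j = 0
  · rw [h0, natDegree_zero]
    exact Nat.zero_le _
  · have h1 := le_natDegree_phi c j A h0
    have h2 : j ≤ A.natDegree := le_natDegree_of_ne_zero h0
    have h3 : (A.coeff j).natDegree + c * j ≤ c * A.natDegree := by
      rw [mul_add] at hW
      omega
    have h4 : c * (A.natDegree - j) + c * j = c * A.natDegree := by
      rw [← mul_add, Nat.sub_add_cancel h2]
    omega

end Pool.Agent.H74.HIT.DFB
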