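import Pool.Agent.H18.HIT.Targets

/-!
Board hit_modules, row GLT: transport by an automorphism of the field.
-/

set_option autoImplicit false

namespace Pool.Agent.H74.HIT.GLT

open MvPolynomial
open Pool.Agent.H12.ZD (pmap v O Res DenseOrbit NoInv)
open Pool.Agent.H18.HIT

section

variable {N : ℕ} {k : Type} [Field k]

theorem eval_smap (σ : k ≃+* k) {x x' : Fin N → k} (h : ∀ i, σ (x i) = x' i) (q : Po N k) :
    eval x' (map (σ : k →+* k) q) = σ (eval x q) := by
  have h1 : x' = (σ : k →+* k) ∘ x := by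
    funext i
    exact (h i).symm
  rw [h1, eval_map]
  exact (eval₂_comp (σ : k →+* k) x q).symm

theorem map_symm_map (σ : k ≃+* k) (q : Po N k) :
    map (σ.symm : k →+* k) (map (σ : k →+* k) q) = q := by
  rw [map_map]
  have : (σ.symm : k →+* k).comp (σ : k →+* k) = RingHom.id k := by
    ext a
    simp
  rw [this, map_id]

theorem map_map_symm (σ : k ≃+* k) (q : Po N k) :
    map (σ : k →+* k) (map (σ.symm : k →+* k) q) = q := by
  rw [map_map]
  have : (σ : k →+* k).comp (σ.symm : k →+* k) = RingHom.id k := by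
    ext a
    simp
  rw [this, map_id]

theorem map_aeval_G (σ : k ≃+* k) {G : Tup N k} (hG : ∀ i, map (σ : k →+* k) (G i) = G i)
    (q : Po N k) : map (σ : k →+* k) (aeval G q) = aeval G (map (σ : k →+* k) q) := by
  induction q using MvPolynomial.induction_on with
  | C a => rw [map_C, aeval_C, aeval_C, algebraMap_eq, map_C]
  | add a b ha hb => rw [map_add, map_add, map_add, map_add, ha, hb]
  | mul_X a i ha => rw [map_mul, map_mul, map_mul, map_mul, ha, map_X, aeval_X, hG]

theorem orbit_fix (σ : k ≃+* k) {G : Tup N k} {z : Fin N → k}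
    (hG : ∀ i, map (σ : k →+* k) (G i) = G i) (hz : ∀ i, σ (z i) = z i) (n : ℕ) :
    ∀ i, σ ((pmap G)^[n] z i) = (pmap G)^[n] z i := by
  induction n with
  | zero => exact hz
  | succ n ih =>
    intro i
    rw [Function.iterate_succ_apply']
    have h1 := eval_smap σ ih (G i)
    rw [hG] at h1
    exact h1.symm

theorem map_van (σ : k ≃+* k) {G : Tup N k} {z : Fin N → k}
    (hG : ∀ i, map (σ : k →+* k) (G i) = G i) (hz : ∀ i, σ (z i) = z i) {c : Po N k}
    (hc : c ∈ van G z) : map (σ : k →+* k) c ∈ van G z := by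
  intro n
  rw [eval_smap σ (orbit_fix σ hG hz n), hc n, map_zero]

theorem map_mx (σ : k ≃+* k) {P P' : Fin N → k} (hP : ∀ i, σ (P i) = P' i) {l : ℕ} {c : Po N k}
    (hc : c ∈ mx P ^ l) : map (σ : k →+* k) c ∈ mx P' ^ l := by
  have h1 : (mx P).map (map (σ : k →+* k) : Po N k →+* Po N k) ≤ mx P' := by
    rw [Ideal.map_le_iff_le_comap]
    intro q hq
    rw [Ideal.mem_comap, mem_mx, eval_smap σ hP, mem_mx.1 hq, map_zero]
  have h2 := Ideal.mem_map_of_mem (map (σ : k →+* k) : Po N k →+* Po N k) hc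
  rw [Ideal.map_pow] at h2
  exact Ideal.pow_right_mono h1 l h2

theorem map_sup (σ : k ≃+* k) {G : Tup N k} {z P P' : Fin N → k}
    (hG : ∀ i, map (σ : k →+* k) (G i) = G i) (hz : ∀ i, σ (z i) = z i)
    (hP : ∀ i, σ (P i) = P' i) {l : ℕ} {c : Po N k} (hc : c ∈ van G z ⊔ mx P ^ l) :
    map (σ : k →+* k) c ∈ van G z ⊔ mx P' ^ l := by
  obtain ⟨a, ha, b, hb, rfl⟩ := Submodule.mem_sup.mp hc
  rw [map_add]
  exact Submodule.add_mem_sup (map_van σ hG hz ha) (map_mx σ hP hb)

end

theorem pf_GLT : T_GLT := by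
  intro N k _ G z P P' σ hG hz hP hrec
  have hG' : ∀ i, map (σ.symm : k →+* k) (G i) = G i := by
    intro i
    conv_lhs => rw [← hG i]
    exact map_symm_map σ (G i)
  have hz' : ∀ i, σ.symm (z i) = z i := by
    intro i
    rw [RingEquiv.symm_apply_eq]
    exact (hz i).symm
  have hP' : ∀ i, σ.symm (P' i) = P i := by
    intro i
    rw [RingEquiv.symm_apply_eq]
    exact (hP i).symm
  refine ⟨fun l c hc => ?_, fun h c hc => ?_, ?_, fun h => ?_⟩
  · have h1 := map_sup σ.symm hG' hz' hP' hc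
    rw [map_aeval_G σ.symm hG'] at h1
    have h2 := map_sup σ hG hz hz (hrec l _ h1)
    rwa [map_map_symm] at h2
  · have h1 := h _ (map_van σ.symm hG' hz' hc)
    have h2 := eval_smap σ hP (map (σ.symm : k →+* k) c)
    rw [map_map_symm, h1, map_zero] at h2
    exact h2
  · rw [← eval_smap σ hP]
    congr 1
    unfold jac
    rw [RingHom.map_det]
    congr 1
    refine Matrix.ext fun i j => ?_
    rw [RingHom.mapMatrix_apply, Matrix.map_apply, Matrix.of_apply, ← pderiv_map, hG]
  · funext i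
    have h1 := eval_smap σ hP (G i)
    rw [hG] at h1
    have h2 : eval P (G i) = z i := congrFun h i
    rw [h2, hz] at h1
    exact h1

end Pool.Agent.H74.HIT.GLT
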